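import Mathlib

namespace Pool.Agent.PropE

/-- property E: `n / 2 ^ n` is a sum of at least two terms `a / 2 ^ a` with distinct positive `a` -/
def PropE (n : ℕ) : Prop :=
  ∃ A : Finset ℕ, 2 ≤ A.card ∧ (∀ a ∈ A, 0 < a) ∧ (n : ℚ) / 2 ^ n = ∑ a ∈ A, (a : ℚ) / 2 ^ a

end Pool.Agent.PropE
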