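import Mathlib
import Pool.Agent.PropE.Defs

namespace Pool.Agent.PropE

open Finset

lemma tele (n m : ℕ) : ∑ k ∈ Ioc n (n + m), (k : ℚ) / 2 ^ k =
    ((n : ℚ) + 2) / 2 ^ n - ((n : ℚ) + m + 2) / 2 ^ (n + m) := by
  induction m with
  | zero => simp
  | succ m ih =>
    rw [← add_assoc, Finset.sum_Ioc_succ_top (by omega), ih]
    push_cast
    rw [pow_succ]
    field_simp
    ring

theorem crit (n m : ℕ) (I : Finset ℕ) (hI : ∀ i ∈ I, i < m) (hcard : I.card + 2 ≤ m)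
    (h : (1 + ∑ i ∈ I, 2 ^ i) * (n + m) + 2 = 2 ^ (m + 1) + ∑ i ∈ I, i * 2 ^ i) : PropE n := by
  have hinj : Set.InjOn (fun i => n + m - i) (I : Set ℕ) := by
    intro a ha b hb hab
    have h1 := hI a ha
    have h2 := hI b hb
    simp only at hab
    omega
  set R : Finset ℕ := I.image (fun i => n + m - i) with hR
  have hsub : R ⊆ Ioc n (n + m) := by
    intro x hx
    rw [hR, mem_image] at hx
    obtain ⟨i, hi, rfl⟩ := hx
    have := hI i hi
    rw [mem_Ioc]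
    omega
  have hRcard : R.card = I.card := card_image_of_injOn hinj
  refine ⟨Ioc n (n + m) \ R, ?_, ?_, ?_⟩
  · rw [card_sdiff_of_subset hsub, hRcard, Nat.card_Ioc]
    omega
  · intro a ha
    rw [mem_sdiff, mem_Ioc] at ha
    omega
  · have h1 := sum_sdiff (f := fun k : ℕ => (k : ℚ) / 2 ^ k) hsub
    have h2 : ∑ k ∈ R, (k : ℚ) / 2 ^ k =
        (((n : ℚ) + m) * ∑ i ∈ I, (2 : ℚ) ^ i - ∑ i ∈ I, (i : ℚ) * 2 ^ i) / 2 ^ (n + m) := by
      rw [hR, sum_image hinj, mul_sum, ← sum_sub_distrib, sum_div]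
      refine sum_congr rfl fun i hi => ?_
      have hi' := hI i hi
      rw [Nat.cast_sub (by omega)]
      have e : (2 : ℚ) ^ (n + m) = 2 ^ (n + m - i) * 2 ^ i := by
        rw [← pow_add]
        congr 1
        omega
      rw [e]
      have p1 : (2 : ℚ) ^ (n + m - i) ≠ 0 := by positivity
      have p2 : (2 : ℚ) ^ i ≠ 0 := by positivity
      push_cast
      field_simp
    rw [tele, h2] at h1
    have h3 : (1 + ∑ i ∈ I, (2 : ℚ) ^ i) * ((n : ℚ) + m) + 2 =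
        2 ^ (m + 1) + ∑ i ∈ I, (i : ℚ) * 2 ^ i := by exact_mod_cast h
    have h4 : ∑ k ∈ Ioc n (n + m) \ R, (k : ℚ) / 2 ^ k =
        ((n : ℚ) + 2) / 2 ^ n - ((n : ℚ) + m + 2) / 2 ^ (n + m) -
        (((n : ℚ) + m) * ∑ i ∈ I, (2 : ℚ) ^ i - ∑ i ∈ I, (i : ℚ) * 2 ^ i) / 2 ^ (n + m) := by
      linarith
    rw [h4]
    have e2 : (2 : ℚ) ^ (n + m) = 2 ^ n * 2 ^ m := pow_add _ _ _
    rw [e2]
    have p1 : (2 : ℚ) ^ n ≠ 0 := by positivity
    have p2 : (2 : ℚ) ^ m ≠ 0 := by positivity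
    rw [pow_succ] at h3
    field_simp
    linear_combination h3

/-- the two-parameter family -/
theorem family (t k : ℕ) (ht : 2 ≤ t) (hk : 1 ≤ k) :
    ∃ n : ℕ, 0 < n ∧ (2 ^ (2 ^ t - 2) + 1) * (n + (t - 1 + 2 * (2 ^ t - 2) * k)) + 2 =
      2 ^ (t + 2 * (2 ^ t - 2) * k) + (2 ^ t - 2) * 2 ^ (2 ^ t - 2) ∧ PropE n := by
  obtain ⟨s, hs⟩ : ∃ s, s = 2 ^ t - 2 := ⟨_, rfl⟩
  have h4 : 4 ≤ 2 ^ t := by
    calc 4 = 2 ^ 2 := by norm_num
      _ ≤ 2 ^ t := Nat.pow_le_pow_right (by norm_num) ht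
  have hs2 : 2 ≤ s := by omega
  have hst : s + 2 = 2 ^ t := by omega
  have hts : t + 1 ≤ s + 2 := by
    rw [hst]
    exact Nat.lt_two_pow_self
  rw [← hs]
  -- D divides 2^(2sk) - 1
  have hdvd : ∃ q, 2 ^ (2 * s * k) = 1 + (2 ^ s + 1) * q ∧ 3 * k ≤ q := by
    induction k, hk using Nat.le_induction with
    | base =>
      refine ⟨2 ^ s - 1, ?_, ?_⟩
      · have h1 : 1 ≤ 2 ^ s := Nat.one_le_pow _ _ (by norm_num)
        obtain ⟨u, hu⟩ : ∃ u, 2 ^ s = u + 1 := ⟨2 ^ s - 1, by omega⟩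
        rw [mul_one, mul_comm 2 s, pow_mul, hu]
        simp only [Nat.add_sub_cancel]
        ring
      · have : 2 ^ 2 ≤ 2 ^ s := Nat.pow_le_pow_right (by norm_num) hs2
        omega
    | succ k hk ih =>
      obtain ⟨q, hq, hqk⟩ := ih
      refine ⟨2 ^ (2 * s) * q + (2 ^ s - 1), ?_, ?_⟩
      · have h1 : 1 ≤ 2 ^ s := Nat.one_le_pow _ _ (by norm_num)
        obtain ⟨u, hu⟩ : ∃ u, 2 ^ s = u + 1 := ⟨2 ^ s - 1, by omega⟩
        rw [mul_add, mul_one, pow_add, hq, mul_comm 2 s, pow_mul, hu]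
        simp only [Nat.add_sub_cancel]
        ring
      · have h2 : 2 ^ 2 ≤ 2 ^ s := Nat.pow_le_pow_right (by norm_num) hs2
        have h3 : 1 ≤ 2 ^ (2 * s) := Nat.one_le_pow _ _ (by norm_num)
        have h4 := Nat.mul_le_mul_right q h3
        omega
  obtain ⟨q, hq, hqk⟩ := hdvd
  have hbig : t - 1 + 2 * s * k < s + (s + 2) * q := by
    have h1 : (s + 2) * (3 * k) ≤ (s + 2) * q := Nat.mul_le_mul_left _ hqk
    have h2 : 2 * s * k + 6 ≤ (s + 2) * (3 * k) := by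
      have : (s + 2) * (3 * k) = 2 * s * k + s * k + 6 * k := by ring
      omega
    omega
  have heq : (2 ^ s + 1) * (s + (s + 2) * q) + 2 = 2 ^ (t + 2 * s * k) + s * 2 ^ s := by
    rw [pow_add, ← hst, hq]
    ring
  obtain ⟨n, hn⟩ : ∃ n, n + (t - 1 + 2 * s * k) = s + (s + 2) * q :=
    ⟨s + (s + 2) * q - (t - 1 + 2 * s * k), by omega⟩
  have hfin : (2 ^ s + 1) * (n + (t - 1 + 2 * s * k)) + 2 =
      2 ^ (t + 2 * s * k) + s * 2 ^ s := by rw [hn, heq]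
  refine ⟨n, by omega, hfin, ?_⟩
  have hsk : s ≤ s * k := Nat.le_mul_of_pos_right s hk
  refine crit n (t - 1 + 2 * s * k) {s} ?_ ?_ ?_
  · intro i hi
    rw [mem_singleton] at hi
    subst hi
    nlinarith
  · rw [card_singleton]
    nlinarith
  · rw [sum_singleton, sum_singleton, add_comm 1 (2 ^ s), hfin]
    congr 2
    omega

end Pool.Agent.PropE
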