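import Mathlib
import Pool.Agent.PropE.Main

namespace Pool.Agent.PropE

open Finset

lemma growth (D N B : ℕ) (hD : 1 ≤ D) : ∀ x, 2 * (D * (N + 4)) + B + 4 ≤ x →
    D * (x + N) + 2 < 2 ^ x := by
  intro x hx
  obtain ⟨a, ha⟩ : ∃ a, a = D * (N + 4) := ⟨_, rfl⟩
  obtain ⟨b, hb⟩ : ∃ b, x = a + b := ⟨x - a, by omega⟩
  have hba : a ≤ b := by omega
  have hb4 : 4 ≤ b := by omega
  have h1 : a < 2 ^ a := Nat.lt_two_pow_self
  have h2 : b < 2 ^ b := Nat.lt_two_pow_self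
  rw [hb, pow_add]
  have h3 : (a + 1) * (b + 1) ≤ 2 ^ a * 2 ^ b := Nat.mul_le_mul h1 h2
  have h4 : a * b = D * N * b + 4 * (D * b) := by rw [ha]; ring
  have h5 : D * a ≤ D * b := Nat.mul_le_mul_left _ hba
  have h6 : D * N ≤ D * N * b := Nat.le_mul_of_pos_right _ (by omega)
  have h7 : b ≤ D * b := Nat.le_mul_of_pos_left _ (by omega)
  have h8 : (a + 1) * (b + 1) = a * b + a + b + 1 := by ring
  have h9 : D * (a + b + N) = D * a + D * b + D * N := by ring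
  omega

/-- every digit set with a solvable congruence gives infinitely many `n` with property E -/
theorem general (I : Finset ℕ) (hI0 : ∀ i ∈ I, 0 < i) (j : ℕ)
    (hj : 2 ^ j + ∑ i ∈ I, i * 2 ^ i ≡ 2 [MOD (1 + ∑ i ∈ I, 2 ^ i)]) (N : ℕ) :
    ∃ n m, N < n ∧ (1 + ∑ i ∈ I, 2 ^ i) * (n + m) + 2 = 2 ^ (m + 1) + ∑ i ∈ I, i * 2 ^ i ∧
      PropE n := by
  obtain ⟨D, hD⟩ : ∃ D, D = 1 + ∑ i ∈ I, 2 ^ i := ⟨_, rfl⟩
  obtain ⟨c, hc⟩ : ∃ c, c = ∑ i ∈ I, i * 2 ^ i := ⟨_, rfl⟩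
  have heven : 2 ∣ ∑ i ∈ I, 2 ^ i := dvd_sum fun i hi => dvd_pow_self 2 (hI0 i hi).ne'
  have hD1 : 1 ≤ D := by omega
  have hcop : Nat.Coprime 2 D := by
    rw [Nat.Prime.coprime_iff_not_dvd Nat.prime_two]
    omega
  rw [← hD, ← hc] at hj
  obtain ⟨B, hB⟩ : ∃ B, B = I.sup id + 1 := ⟨_, rfl⟩
  have hIB : I ⊆ range B := by
    intro i hi
    rw [mem_range, hB]
    have : i ≤ I.sup id := le_sup (f := id) hi
    omega
  have hIcard : I.card ≤ B := by
    have := card_le_card hIB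
    rwa [card_range] at this
  obtain ⟨K, hK⟩ : ∃ K, K = 2 * (D * (N + 4)) + B + 4 := ⟨_, rfl⟩
  have hφ : 1 ≤ D.totient := Nat.totient_pos.mpr hD1
  have hφK : K ≤ D.totient * K := Nat.le_mul_of_pos_left _ hφ
  obtain ⟨m, hm⟩ : ∃ m, m + 1 = j + D.totient * K := ⟨j + D.totient * K - 1, by omega⟩
  have hmod : 2 ^ (m + 1) + c ≡ 2 [MOD D] := by
    rw [hm, pow_add, pow_mul]
    have h1 : (2 ^ D.totient) ^ K ≡ 1 [MOD D] := by
      have := (Nat.ModEq.pow_totient hcop).pow K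
      rwa [one_pow] at this
    have h2 : 2 ^ j * (2 ^ D.totient) ^ K ≡ 2 ^ j [MOD D] := by
      have := h1.mul_left (2 ^ j)
      rwa [mul_one] at this
    exact (h2.add_right c).trans hj
  have hge : 2 ≤ 2 ^ (m + 1) + c := by
    have : 2 ^ 1 ≤ 2 ^ (m + 1) := Nat.pow_le_pow_right (by norm_num) (by omega)
    omega
  obtain ⟨v, hv⟩ := (Nat.modEq_iff_dvd' hge).mp hmod.symm
  have hg := growth D N B hD1 (m + 1) (by omega)
  have hvbig : m + N < v := by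
    by_contra hcon
    push Not at hcon
    have h1 : D * v ≤ D * (m + 1 + N) := Nat.mul_le_mul_left _ (by omega)
    omega
  refine ⟨v - m, m, by omega, ?_, ?_⟩
  · rw [← hD, ← hc, show v - m + m = v by omega]
    omega
  · refine crit (v - m) m I ?_ ?_ ?_
    · intro i hi
      have := mem_range.mp (hIB hi)
      omega
    · omega
    · rw [← hD, ← hc, show v - m + m = v by omega]
      omega

end Pool.Agent.PropE
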